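import Pool.Agent.Helper76.BG.Final

/-!
# MP_134aa9_al, Q1: the star class and the sharp class differ on infinite groups

There are a group word `w` in two variables and an infinite group `G` with `G ∈ V(w^*)` and
`G ∉ V(w^#)`.

The word is `w = (x^(m+1) y⁻¹ x^(-m) y)^n` with `n = 3^t`, and the group is an infinite `3`-group in which
the centralizer of every nontrivial element is finite, any two noncommuting elements satisfy `w = 1`,
and some element `a` has `a^n ≠ 1`. It is the direct limit of a sequence of groups acting on hyperbolic
graphs (an odd exponent, iterated small cancellation construction, proved from scratch in the files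
`Pool/Agent/Helper76/BG`). Star: two infinite subsets contain noncommuting elements. Sharp fails: the
conjugacy class of `a` is infinite, and for `s` in it, `w(s, 1) = s^n ≠ 1`.
-/

set_option autoImplicit false

namespace Pool.Agent.Results.MP_134aa9_al.FullAnswer

/-- The class `V(w^*)`: whenever `S_1, …, S_n` are infinite subsets of `G`, there are `s_i ∈ S_i` with
`w(s_1, …, s_n) = 1`. -/
def InStar {n : ℕ} (w : FreeGroup (Fin n)) (G : Type) [Group G] : Prop :=
  ∀ S : Fin n → Set G, (∀ i, (S i).Infinite) →
    ∃ s : Fin n → G, (∀ i, s i ∈ S i) ∧ FreeGroup.lift s w = 1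

/-- The variety `V(w)`: the law `w = 1` holds in `G`. -/
def InVariety {n : ℕ} (w : FreeGroup (Fin n)) (G : Type) [Group G] : Prop :=
  ∀ s : Fin n → G, FreeGroup.lift s w = 1

/-- The class `V(w^#)`: whenever `S_1, …, S_n` are infinite subsets of `G`, there are `s_i ∈ S_i` such that
the subgroup generated by `s_1, …, s_n` is in `V(w)`. -/
def InSharp {n : ℕ} (w : FreeGroup (Fin n)) (G : Type) [Group G] : Prop :=
  ∀ S : Fin n → Set G, (∀ i, (S i).Infinite) →
    ∃ s : Fin n → G, (∀ i, s i ∈ S i) ∧ InVariety w (Subgroup.closure (Set.range s))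

/-- Q1 of MP_134aa9_al, answer yes. -/
theorem result : ∃ (w : FreeGroup (Fin 2)) (G : Type) (_ : Group G),
    Infinite G ∧ InStar w G ∧ ¬ InSharp w G :=
  BG.answer

end Pool.Agent.Results.MP_134aa9_al.FullAnswer
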