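import Mathlib

/-!
# MP_134aa9_al: groups with enough topologizable subgroups
-/

set_option autoImplicit false

open Topology Filter

namespace Pool.Agent.Results.MP_134aa9_al.TopologizableGroups

/-- The class `V(w^*)`. -/
def InStar {n : ℕ} (w : FreeGroup (Fin n)) (G : Type) [Group G] : Prop :=
  ∀ S : Fin n → Set G, (∀ i, (S i).Infinite) →
    ∃ s : Fin n → G, (∀ i, s i ∈ S i) ∧ FreeGroup.lift s w = 1

/-- The variety `V(w)`. -/
def InVariety {n : ℕ} (w : FreeGroup (Fin n)) (G : Type) [Group G] : Prop :=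
  ∀ s : Fin n → G, FreeGroup.lift s w = 1

/-- The subgroup `H` admits a nondiscrete Hausdorff group topology. -/
def Topologizable {G : Type} [Group G] (H : Subgroup G) : Prop :=
  ∃ τ : TopologicalSpace H, @IsTopologicalGroup H τ _ ∧ @T2Space H τ ∧ ¬ @DiscreteTopology H τ

/-- word maps are continuous -/
theorem continuous_word {n : ℕ} (w : FreeGroup (Fin n)) {G : Type} [Group G]
    [TopologicalSpace G] [IsTopologicalGroup G] :
    Continuous (fun s : Fin n → G => FreeGroup.lift s w) := by
  induction w using FreeGroup.induction_on with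
  | C1 => simpa using continuous_const
  | of i => simpa using continuous_apply i
  | inv_of i _ =>
    have h : Continuous (fun s : Fin n → G => (s i)⁻¹) := (continuous_apply i).inv
    simpa using h
  | mul x y hx hy =>
    simp only [map_mul]
    exact hx.mul hy

/-- the basic argument in a topological group -/
theorem law_of_star {n : ℕ} (w : FreeGroup (Fin n)) {G : Type} [Group G] [TopologicalSpace G]
    [IsTopologicalGroup G] [T2Space G] (hnd : ¬ DiscreteTopology G) (h : InStar w G) :
    InVariety w G := by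
  intro g
  by_contra hne
  -- a neighbourhood of `g` on which the word does not vanish
  have hopen : IsOpen {s : Fin n → G | FreeGroup.lift s w ≠ 1} :=
    isOpen_ne_fun (continuous_word w) continuous_const
  have hmem : {s : Fin n → G | FreeGroup.lift s w ≠ 1} ∈ 𝓝 g := hopen.mem_nhds hne
  rw [nhds_pi, Filter.mem_pi'] at hmem
  obtain ⟨I, t, ht, hsub⟩ := hmem
  have hinf : ∀ i, (t i).Infinite := by
    intro i
    have hne' : (𝓝[≠] (g i)).NeBot := by
      rw [neBot_iff]
      intro hbot
      apply hnd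
      exact discreteTopology_of_isOpen_singleton_one (by
        have h1 : IsOpen ({g i} : Set G) := isOpen_singleton_iff_punctured_nhds (g i) |>.mpr hbot
        have h2 : IsOpen ((fun x => g i * x) ⁻¹' ({g i} : Set G)) :=
          h1.preimage (continuous_const.mul continuous_id)
        convert h2 using 1
        ext x
        simp)
    exact infinite_of_mem_nhds (g i) (ht i)
  obtain ⟨s, hs, hw⟩ := h t hinf
  exact hsub (fun i _ => hs i) hw

/-- The class `V(w^#)`. -/
def InSharp {n : ℕ} (w : FreeGroup (Fin n)) (G : Type) [Group G] : Prop :=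
  ∀ S : Fin n → Set G, (∀ i, (S i).Infinite) →
    ∃ s : Fin n → G, (∀ i, s i ∈ S i) ∧ InVariety w (Subgroup.closure (Set.range s))

/-- Homomorphisms to compact Hausdorff groups separate the points of `N`
(`N` is maximally almost periodic; for instance abelian or residually finite). -/
def MAP (N : Type) [Group N] : Prop :=
  ∀ x : N, x ≠ 1 → ∃ (C : Type) (_ : Group C) (_ : TopologicalSpace C)
    (_ : IsTopologicalGroup C) (_ : CompactSpace C) (_ : T2Space C) (f : N →* C), f x ≠ 1

/-- the filter basis defined by the homomorphisms from `N` to compact groups -/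
@[reducible] def basis {G : Type} [Group G] (N : Subgroup G) [N.Normal] : GroupFilterBasis G where
  sets := {S | ∃ (C : Type) (_ : Group C) (_ : TopologicalSpace C) (_ : IsTopologicalGroup C)
    (_ : CompactSpace C) (f : N →* C) (U : Set C), U ∈ 𝓝 (1 : C) ∧ S = Subtype.val '' (f ⁻¹' U)}
  nonempty := ⟨Subtype.val '' ((1 : N →* Multiplicative (ZMod 1)) ⁻¹' Set.univ),
    Multiplicative (ZMod 1), inferInstance, ⊥, by
      letI : TopologicalSpace (Multiplicative (ZMod 1)) := ⊥
      haveI : DiscreteTopology (Multiplicative (ZMod 1)) := ⟨rfl⟩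
      infer_instance, by
      letI : TopologicalSpace (Multiplicative (ZMod 1)) := ⊥
      infer_instance, 1, Set.univ, Filter.univ_mem, rfl⟩
  inter_sets := by
    rintro _ _ ⟨C, _, _, _, _, f, U, hU, rfl⟩ ⟨C', _, _, _, _, f', U', hU', rfl⟩
    refine ⟨_, ⟨C × C', inferInstance, inferInstance, inferInstance, inferInstance,
      f.prod f', U ×ˢ U', prod_mem_nhds hU hU', rfl⟩, ?_⟩
    rintro _ ⟨x, ⟨h1, h2⟩, rfl⟩
    exact ⟨⟨x, h1, rfl⟩, ⟨x, h2, rfl⟩⟩
  one' := by
    rintro _ ⟨C, _, _, _, _, f, U, hU, rfl⟩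
    refine ⟨1, ?_, rfl⟩
    show f 1 ∈ U
    rw [map_one]
    exact mem_of_mem_nhds hU
  mul' := by
    rintro _ ⟨C, _, _, _, _, f, U, hU, rfl⟩
    obtain ⟨V, hV, hVU⟩ := exists_open_nhds_one_mul_subset hU
    refine ⟨_, ⟨C, inferInstance, inferInstance, inferInstance, inferInstance, f, V,
      hV.mem_nhds hVU.1, rfl⟩, ?_⟩
    rintro _ ⟨_, ⟨x, hx, rfl⟩, _, ⟨y, hy, rfl⟩, rfl⟩
    refine ⟨x * y, ?_, rfl⟩
    show f (x * y) ∈ U
    rw [map_mul]
    exact hVU.2 (Set.mul_mem_mul hx hy)
  inv' := by
    rintro _ ⟨C, _, _, _, _, f, U, hU, rfl⟩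
    refine ⟨_, ⟨C, inferInstance, inferInstance, inferInstance, inferInstance, f, U⁻¹,
      inv_mem_nhds_one C hU, rfl⟩, ?_⟩
    rintro _ ⟨x, hx, rfl⟩
    refine ⟨x⁻¹, ?_, rfl⟩
    show f x⁻¹ ∈ U
    rw [map_inv]
    exact hx
  conj' := by
    rintro g _ ⟨C, _, _, _, _, f, U, hU, rfl⟩
    refine ⟨_, ⟨C, inferInstance, inferInstance, inferInstance, inferInstance,
      f.comp (MulAut.conjNormal g).toMonoidHom, U, hU, rfl⟩, ?_⟩
    rintro _ ⟨x, hx, rfl⟩
    refine ⟨MulAut.conjNormal g x, hx, ?_⟩
    simp [MulAut.conjNormal_apply]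

/-- a group with an infinite normal maximally almost periodic subgroup is topologizable -/
theorem exists_topology {G : Type} [Group G] (N : Subgroup G) [N.Normal] (hinf : Infinite N)
    (hN : MAP N) : ∃ τ : TopologicalSpace G, @IsTopologicalGroup G τ _ ∧ @T2Space G τ ∧
      ¬ @DiscreteTopology G τ := by
  letI : TopologicalSpace G := (basis N).topology
  haveI : IsTopologicalGroup G := (basis N).isTopologicalGroup
  have hb := (basis N).nhds_one_hasBasis
  refine ⟨inferInstance, inferInstance, ?_, ?_⟩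
  · refine IsTopologicalGroup.t2Space_of_one_sep (fun x hx => ?_)
    by_cases hxN : x ∈ N
    · obtain ⟨C, _, _, _, _, _, f, hf⟩ := hN ⟨x, hxN⟩ (fun h => hx (congrArg Subtype.val h))
      refine ⟨Subtype.val '' (f ⁻¹' {f ⟨x, hxN⟩}ᶜ), hb.mem_of_mem
        ⟨C, inferInstance, inferInstance, inferInstance, inferInstance, f, {f ⟨x, hxN⟩}ᶜ,
          isOpen_compl_singleton.mem_nhds (fun h => hf h.symm), rfl⟩, ?_⟩
      rintro ⟨y, hy, hyx⟩
      have : y = ⟨x, hxN⟩ := Subtype.ext hyx
      rw [this] at hy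
      exact hy rfl
    · obtain ⟨S, hS⟩ := (basis N).nonempty
      refine ⟨S, hb.mem_of_mem hS, ?_⟩
      obtain ⟨C, _, _, _, _, f, U, hU, rfl⟩ := hS
      rintro ⟨y, _, rfl⟩
      exact hxN y.2
  · intro hd
    have h1 : ({1} : Set G) ∈ 𝓝 (1 : G) := by
      rw [nhds_discrete]
      exact Filter.mem_pure.mpr rfl
    obtain ⟨S, hS, hS1⟩ := hb.mem_iff.mp h1
    obtain ⟨C, _, _, _, _, f, U, hU, rfl⟩ := hS
    obtain ⟨V, hV, hVU⟩ := exists_open_nhds_one_split hU
    -- translates of `V⁻¹ * V`
    have hW : V ∩ V⁻¹ ∈ 𝓝 (1 : C) :=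
      Filter.inter_mem (hV.mem_nhds hVU.1) (inv_mem_nhds_one C (hV.mem_nhds hVU.1))
    have hcov : ∀ c : C, (fun z => c * z) '' (V ∩ V⁻¹) ∈ 𝓝 c := by
      intro c
      have := image_mem_map (m := fun z => c * z) hW
      rwa [show Filter.map (fun z => c * z) (𝓝 (1 : C)) = 𝓝 c from map_mul_left_nhds_one c]
        at this
    obtain ⟨t, ht⟩ := CompactSpace.elim_nhds_subcover _ hcov
    have hex : ∀ x : N, ∃ c : t, f x ∈ (fun z => (c : C) * z) '' (V ∩ V⁻¹) := by
      intro x
      have hx : f x ∈ (⊤ : Set C) := trivial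
      rw [← ht] at hx
      simp only [Set.mem_iUnion] at hx
      obtain ⟨c, hc, hx⟩ := hx
      exact ⟨⟨c, hc⟩, hx⟩
    choose c hc using hex
    obtain ⟨x, y, hxy, hcxy⟩ := Finite.exists_ne_map_eq_of_infinite c
    obtain ⟨a, ha, hax⟩ := hc x
    obtain ⟨b, hb', hby⟩ := hc y
    have hmem : f (x⁻¹ * y) ∈ U := by
      rw [map_mul, map_inv, ← hax, ← hby, ← hcxy]
      have e : ((c x : C) * a)⁻¹ * ((c x : C) * b) = a⁻¹ * b := by group
      show ((c x : C) * a)⁻¹ * ((c x : C) * b) ∈ U
      rw [e]
      exact hVU.2 _ ha.2 _ hb'.1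
    have h2 := hS1 ⟨x⁻¹ * y, hmem, rfl⟩
    have h3 : x⁻¹ * y = 1 := Subtype.ext h2
    exact hxy (inv_mul_eq_one.mp h3)

theorem sharp_of_variety {n : ℕ} {w : FreeGroup (Fin n)} {G : Type} [Group G]
    (h : InVariety w G) : InSharp w G := by
  intro S hS
  choose s hs using fun i => (hS i).nonempty
  refine ⟨s, hs, fun t => ?_⟩
  apply Subtype.val_injective
  have e : (FreeGroup.lift (fun i => ((t i : Subgroup.closure (Set.range s)) : G)) :
      FreeGroup (Fin n) →* G) = (Subgroup.closure (Set.range s)).subtype.comp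
        (FreeGroup.lift t) := by
    ext i
    simp
  have h1 := h (fun i => (t i : G))
  rw [e] at h1
  exact h1

/-- Every finite subset of `G` lies in a subgroup which admits a nondiscrete Hausdorff group
topology or has an infinite normal maximally almost periodic subgroup. -/
theorem result {n : ℕ} (w : FreeGroup (Fin n)) (G : Type) [Group G]
    (hG : ∀ F : Set G, F.Finite → ∃ H : Subgroup G, F ⊆ (H : Set G) ∧
      (Topologizable H ∨ ∃ N : Subgroup H, N.Normal ∧ Infinite N ∧ MAP N))
    (h : InStar w G) : InVariety w G ∧ InSharp w G := by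
  have hvar : InVariety w G := by
    intro g
    obtain ⟨H, hH, hor⟩ := hG (Set.range g) (Set.finite_range g)
    have hτ : Topologizable H := by
      rcases hor with h1 | ⟨N, hN, hinf, hmap⟩
      · exact h1
      · haveI := hN
        exact exists_topology N hinf hmap
    obtain ⟨τ, h1, h2, h3⟩ := hτ
    have hstar : InStar w H := by
      intro S hS
      obtain ⟨s, hs, hw⟩ := h (fun i => (Subtype.val : H → G) '' (S i))
        (fun i => (hS i).image Subtype.val_injective.injOn)
      choose s' hs' hss using hs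
      refine ⟨s', hs', ?_⟩
      apply Subtype.val_injective
      have e : (FreeGroup.lift s) w = H.subtype (FreeGroup.lift s' w) := by
        have : (FreeGroup.lift s : FreeGroup (Fin n) →* G) =
            H.subtype.comp (FreeGroup.lift s') := by
          ext i
          simp [hss i]
        rw [this]
        rfl
      rw [e] at hw
      simpa using hw
    have hlaw := @law_of_star n w H _ τ h1 h2 h3 hstar
      (fun i => ⟨g i, hH (Set.mem_range_self i)⟩)
    have e : (FreeGroup.lift g : FreeGroup (Fin n) →* G) =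
        H.subtype.comp (FreeGroup.lift (fun i => (⟨g i, hH (Set.mem_range_self i)⟩ : H))) := by
      ext i
      simp
    rw [e]
    simp [hlaw]
  exact ⟨hvar, sharp_of_variety hvar⟩

end Pool.Agent.Results.MP_134aa9_al.TopologizableGroups
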